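import Mathlib
import Pool.Agent.MP_640286_co.H93.Defs
import Pool.Agent.MP_640286_co.H93.Tree

set_option autoImplicit false

namespace Pool.Agent.Results.MP_640286_co.Gap

open Pool.Agent.MP_640286_co.H93

/-- A connected graph whose critical edge density is at least `15/16 = 0.9375`, while for every
proper labeling the star decomposition bound `1 - 1/λ²` is at most `0.93747`. -/
theorem result :
    ∃ (n : ℕ) (H : SimpleGraph (Fin (n + 1))), H.Connected ∧
      (∃ d : ℝ, IsCritDensity H d ∧ (∀ d' : ℝ, IsCritDensity H d' → d' = d) ∧ 15 / 16 ≤ d) ∧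
      (∃ f : Fin (n + 1) ≃ Fin (n + 1), IsProper H f) ∧
      ∀ f : Fin (n + 1) ≃ Fin (n + 1), IsProper H f →
        ∃ lam : ℝ, IsGreatest (adjSpectrum (pathTree H f)) lam ∧ 0 < lam ∧
          1 - 1 / lam ^ 2 ≤ 93747 / 100000 := by
  refine ⟨44, MP_640286_co.H32.H, MP_640286_co.H32.H_connected, ?_, ⟨_, refl_proper⟩, ?_⟩
  · obtain ⟨d, h1, h2⟩ := exists_crit MP_640286_co.H32.H (a := 0) (b := 1) (by decide) (15 / 16)
      ⟨106, MP_640286_co.H32.proj, MP_640286_co.H32.proj_surj, MP_640286_co.H32.G,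
        MP_640286_co.H32.G_hom⟩ MP_640286_co.H32.density MP_640286_co.H32.no_transversal
    exact ⟨d, h1, fun d' h' => crit_unique h1 h', h2⟩
  · intro f hf
    obtain ⟨μ, h1, h2, h3⟩ := all_trees f hf
    refine ⟨μ, h1, h2, ?_⟩
    have h4 : 1 / (3999 / 1000 : ℝ) ^ 2 ≤ 1 / μ ^ 2 :=
      one_div_le_one_div_of_le (pow_pos h2 2) (pow_le_pow_left₀ h2.le h3 2)
    have h5 : (6253 / 100000 : ℝ) ≤ 1 / (3999 / 1000 : ℝ) ^ 2 := by norm_num
    linarith

end Pool.Agent.Results.MP_640286_co.Gap
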